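import Pool.Agent.QPinch.Torus

/-!
No collapse of pointwise pinched metrics on the 3-sphere that are invariant under the standard
2-torus.
-/

namespace Pool.Agent.Results.MP_c98eff_gt.TorusInvariantSphere

open Pool.Agent.QPinch

/-- For every pinching constant δ there is a positive ε with vol ≥ ε diam^3 for all torus-invariant
metrics on the 3-sphere which are pointwise strictly δ-pinched off the two singular circles. -/
theorem result (δ : ℝ) (hδ : 0 < δ) : ∃ ε : ℝ, 0 < ε ∧ ∀ M : TorusMetric,
    (∀ x : Fin 3 → ℝ, x 0 ∈ Set.Ioo 0 M.L → PinchedAt δ M.metric x) →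
      ε * M.diam ^ 3 ≤ M.volume :=
  torus_noncollapse δ hδ

end Pool.Agent.Results.MP_c98eff_gt.TorusInvariantSphere
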